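import Mathlib

/-! Arithmetic of the zigzag sequences. -/

namespace Pool.Agent.MP_0d7d47_co.H52

/-- starting values, one for each quadrant -/
def w0 : Bool × Bool → ℤ
  | (false, false) => 2
  | (false, true) => 4
  | (true, false) => 8
  | (true, true) => 10

def w (q : Bool × Bool) : ℕ → ℤ
  | 0 => w0 q
  | (j + 1) => (w q j) ^ 2 * (2 * (w q j) ^ 2 - 1)

lemma w_succ (q : Bool × Bool) (j : ℕ) :
    w q (j + 1) = (w q j) ^ 2 * (2 * (w q j) ^ 2 - 1) := rfl

lemma w0_cases (q : Bool × Bool) : w q 0 = 2 ∨ w q 0 = 4 ∨ w q 0 = 8 ∨ w q 0 = 10 := by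
  rcases q with ⟨_ | _, _ | _⟩ <;> simp [w, w0]

lemma w0_inj {q q' : Bool × Bool} (h : w q 0 = w q' 0) : q = q' := by
  rcases q with ⟨_ | _, _ | _⟩ <;> rcases q' with ⟨_ | _, _ | _⟩ <;> simp [w, w0] at h ⊢

lemma two_le_w (q : Bool × Bool) (j : ℕ) : 2 ≤ w q j := by
  induction j with
  | zero => rcases w0_cases q with h | h | h | h <;> omega
  | succ j ih =>
    rw [w_succ]
    have h1 : 4 ≤ (w q j) ^ 2 := by nlinarith
    nlinarith

lemma w_succ_ge (q : Bool × Bool) (j : ℕ) : 7 * (w q j) ^ 2 ≤ w q (j + 1) := by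
  rw [w_succ]
  have h0 := two_le_w q j
  have h1 : 4 ≤ (w q j) ^ 2 := by nlinarith
  nlinarith

lemma w_succ_ge28 (q : Bool × Bool) (j : ℕ) : 28 ≤ w q (j + 1) := by
  have h0 := two_le_w q j
  have h1 : 4 ≤ (w q j) ^ 2 := by nlinarith
  have := w_succ_ge q j
  omega

lemma w_even (q : Bool × Bool) (j : ℕ) : (w q j) % 2 = 0 := by
  induction j with
  | zero => rcases w0_cases q with h | h | h | h <;> omega
  | succ j ih =>
    rw [w_succ]
    obtain ⟨t, ht⟩ : ∃ t, w q j = 2 * t := ⟨w q j / 2, by omega⟩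
    rw [ht]
    have : (2 * t) ^ 2 * (2 * (2 * t) ^ 2 - 1) = 2 * (2 * t ^ 2 * (2 * (2 * t) ^ 2 - 1)) := by ring
    omega

lemma f_inj {a b : ℤ} (ha : 2 ≤ a) (hb : 2 ≤ b)
    (h : a ^ 2 * (2 * a ^ 2 - 1) = b ^ 2 * (2 * b ^ 2 - 1)) : a = b := by
  have h1 : 4 ≤ a ^ 2 := by nlinarith
  have h2 : 4 ≤ b ^ 2 := by nlinarith
  have h3 : (a ^ 2 - b ^ 2) * (2 * a ^ 2 + 2 * b ^ 2 - 1) = 0 := by linear_combination h
  rcases mul_eq_zero.1 h3 with h4 | h4
  · have : (a - b) * (a + b) = 0 := by linear_combination h4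
    rcases mul_eq_zero.1 this with h5 | h5 <;> omega
  · omega

lemma w_inj {q q' : Bool × Bool} : ∀ {j j' : ℕ}, w q j = w q' j' → q = q' ∧ j = j'
  | 0, 0, h => ⟨w0_inj h, rfl⟩
  | 0, j' + 1, h => by
    have := w_succ_ge28 q' j'
    rcases w0_cases q with h1 | h1 | h1 | h1 <;> omega
  | j + 1, 0, h => by
    have := w_succ_ge28 q j
    rcases w0_cases q' with h1 | h1 | h1 | h1 <;> omega
  | j + 1, j' + 1, h => by
    have h1 := f_inj (two_le_w q j) (two_le_w q' j') h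
    obtain ⟨h2, h3⟩ := w_inj h1
    exact ⟨h2, by omega⟩

/-- distance from the origin of the `k`-th zigzag point -/
def y (q : Bool × Bool) (k : ℕ) : ℤ :=
  if k = 0 then 0 else if k % 2 = 1 then 4 * w q (k / 2) else 4 * (w q (k / 2 - 1)) ^ 2 - 1

/-- length of the `k`-th zigzag segment -/
def hyp (q : Bool × Bool) (k : ℕ) : ℤ :=
  if k = 0 then 4 * w q 0 else if k % 2 = 1 then 4 * (w q (k / 2)) ^ 2 + 1 else 4 * w q (k / 2) + 1

/-- integer part of longest side over shortest side -/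
def key (q : Bool × Bool) (k : ℕ) : ℤ :=
  if k = 0 then w q 0 else if k % 2 = 1 then 2 * (w q (k / 2)) ^ 2 - 2 else w q (k / 2) - 1

lemma y_zero (q : Bool × Bool) : y q 0 = 0 := by simp [y]
lemma y_odd (q : Bool × Bool) (j : ℕ) : y q (2 * j + 1) = 4 * w q j := by
  have h1 : (2 * j + 1) % 2 = 1 := by omega
  have h2 : (2 * j + 1) / 2 = j := by omega
  simp [y, h1, h2]
lemma y_even (q : Bool × Bool) (j : ℕ) : y q (2 * j + 2) = 4 * (w q j) ^ 2 - 1 := by
  have h1 : ¬ (2 * j + 2) % 2 = 1 := by omega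
  have h2 : (2 * j + 2) / 2 - 1 = j := by omega
  simp only [y, h1, h2]
  simp
lemma hyp_zero (q : Bool × Bool) : hyp q 0 = 4 * w q 0 := by simp [hyp]
lemma hyp_odd (q : Bool × Bool) (j : ℕ) : hyp q (2 * j + 1) = 4 * (w q j) ^ 2 + 1 := by
  have h1 : (2 * j + 1) % 2 = 1 := by omega
  have h2 : (2 * j + 1) / 2 = j := by omega
  simp [hyp, h1, h2]
lemma hyp_even (q : Bool × Bool) (j : ℕ) : hyp q (2 * j + 2) = 4 * w q (j + 1) + 1 := by
  have h1 : ¬ (2 * j + 2) % 2 = 1 := by omega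
  have h2 : (2 * j + 2) / 2 = j + 1 := by omega
  simp only [hyp, h1, h2]
  simp
lemma key_zero (q : Bool × Bool) : key q 0 = w q 0 := by simp [key]
lemma key_odd (q : Bool × Bool) (j : ℕ) : key q (2 * j + 1) = 2 * (w q j) ^ 2 - 2 := by
  have h1 : (2 * j + 1) % 2 = 1 := by omega
  have h2 : (2 * j + 1) / 2 = j := by omega
  simp [key, h1, h2]
lemma key_even (q : Bool × Bool) (j : ℕ) : key q (2 * j + 2) = w q (j + 1) - 1 := by
  have h1 : ¬ (2 * j + 2) % 2 = 1 := by omega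
  have h2 : (2 * j + 2) / 2 = j + 1 := by omega
  simp only [key, h1, h2]
  simp

lemma cases3 (k : ℕ) : k = 0 ∨ (∃ j, k = 2 * j + 1) ∨ (∃ j, k = 2 * j + 2) := by
  rcases Nat.eq_zero_or_pos k with h | h
  · exact Or.inl h
  · rcases Nat.mod_two_eq_zero_or_one k with h1 | h1
    · exact Or.inr (Or.inr ⟨k / 2 - 1, by omega⟩)
    · exact Or.inr (Or.inl ⟨k / 2, by omega⟩)

/-- all the arithmetic facts about the `k`-th triangle -/
lemma facts (q : Bool × Bool) (k : ℕ) :
    0 ≤ y q k ∧ 0 < y q (k + 1) ∧ 0 < hyp q k ∧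
    (y q k) ^ 2 + (y q (k + 1)) ^ 2 = (hyp q k) ^ 2 ∧
    hyp q k ≤ y q (k + 2) - y q k ∧ y q (k + 2) - y q k ≤ hyp q (k + 1) ∧
    key q k * hyp q k ≤ hyp q (k + 1) ∧ hyp q (k + 1) < (key q k + 1) * hyp q k := by
  rcases cases3 k with rfl | ⟨j, rfl⟩ | ⟨j, rfl⟩
  · have e1 := y_odd q 0
    have e2 := y_even q 0
    have e3 := hyp_odd q 0
    simp only [Nat.mul_zero, Nat.zero_add] at e1 e2 e3
    simp only [Nat.zero_add]
    rw [y_zero, hyp_zero, key_zero, e1, e2, e3]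
    have h := two_le_w q 0
    refine ⟨le_rfl, by omega, by omega, by ring, by nlinarith, by nlinarith, by nlinarith,
      by nlinarith⟩
  · have e1 : y q (2 * j + 1 + 1) = 4 * (w q j) ^ 2 - 1 := y_even q j
    have e2 : y q (2 * j + 1 + 2) = 4 * w q (j + 1) := y_odd q (j + 1)
    have e3 : hyp q (2 * j + 1 + 1) = 4 * w q (j + 1) + 1 := hyp_even q j
    rw [y_odd, hyp_odd, key_odd, e1, e2, e3]
    have h := two_le_w q j
    have h2 := w_succ_ge q j
    have h3 := w_succ q j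
    have h1 : 4 ≤ (w q j) ^ 2 := by nlinarith
    refine ⟨by omega, by omega, by omega, by ring, by nlinarith, by nlinarith, by nlinarith,
      by nlinarith⟩
  · have e1 : y q (2 * j + 2 + 1) = 4 * w q (j + 1) := y_odd q (j + 1)
    have e2 : y q (2 * j + 2 + 2) = 4 * (w q (j + 1)) ^ 2 - 1 := y_even q (j + 1)
    have e3 : hyp q (2 * j + 2 + 1) = 4 * (w q (j + 1)) ^ 2 + 1 := hyp_odd q (j + 1)
    rw [y_even, hyp_even, key_even, e1, e2, e3]
    have h := two_le_w q j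
    have h2 := w_succ_ge q j
    have h3 := w_succ q j
    have h4 := w_succ_ge28 q j
    have h1 : 4 ≤ (w q j) ^ 2 := by nlinarith
    refine ⟨by omega, by omega, by omega, ?_, by nlinarith, by nlinarith, by nlinarith,
      by nlinarith⟩
    rw [h3]; ring

lemma key_inj {q q' : Bool × Bool} {k k' : ℕ} (h : key q k = key q' k') : q = q' ∧ k = k' := by
  have sq : ∀ (q : Bool × Bool) (j : ℕ), (w q j) ^ 2 = 4 ∨ 16 ≤ (w q j) ^ 2 := by
    intro q j
    have h1 := two_le_w q j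
    have h2 := w_even q j
    rcases eq_or_lt_of_le h1 with h3 | h3
    · left; rw [← h3]; norm_num
    · right
      have : 4 ≤ w q j := by omega
      nlinarith
  rcases cases3 k with rfl | ⟨j, rfl⟩ | ⟨j, rfl⟩ <;>
    rcases cases3 k' with rfl | ⟨j', rfl⟩ | ⟨j', rfl⟩ <;>
    simp only [key_zero, key_odd, key_even] at h
  · exact ⟨w0_inj h, rfl⟩
  · exfalso
    rcases w0_cases q with h1 | h1 | h1 | h1 <;> rcases sq q' j' with h2 | h2 <;> omega
  · exfalso
    have := w_even q 0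
    have := w_even q' (j' + 1)
    omega
  · exfalso
    rcases w0_cases q' with h1 | h1 | h1 | h1 <;> rcases sq q j with h2 | h2 <;> omega
  · have h1 := two_le_w q j
    have h2 := two_le_w q' j'
    have h3 : (w q j - w q' j') * (w q j + w q' j') = 0 := by
      have h0 : (w q j) ^ 2 = (w q' j') ^ 2 := by omega
      linear_combination h0
    have h4 : w q j = w q' j' := by
      rcases mul_eq_zero.1 h3 with h5 | h5 <;> omega
    obtain ⟨h5, h6⟩ := w_inj h4
    exact ⟨h5, by omega⟩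
  · exfalso
    have := w_even q' (j' + 1)
    omega
  · exfalso
    have := w_even q' 0
    have := w_even q (j + 1)
    omega
  · exfalso
    have := w_even q (j + 1)
    omega
  · have h4 : w q (j + 1) = w q' (j' + 1) := by omega
    obtain ⟨h5, h6⟩ := w_inj h4
    exact ⟨h5, by omega⟩

lemma y_lt (q : Bool × Bool) (k : ℕ) : y q k < y q (k + 2) := by
  obtain ⟨-, -, h1, -, h2, -⟩ := facts q k
  omega

lemma y_ge (q : Bool × Bool) : ∀ k : ℕ, (k : ℤ) ≤ 2 * y q k + 1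
  | 0 => by simp [y_zero]
  | 1 => by have := (facts q 1).1; omega
  | (k + 2) => by
    have h1 := y_ge q k
    have h2 := y_lt q k
    push_cast
    omega

end Pool.Agent.MP_0d7d47_co.H52
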