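import Mathlib
import Pool.Agent.MP_0d7d47_co.H52.Arith

/-! Geometry of the zigzag triangles. -/

namespace Pool.Agent.MP_0d7d47_co.H52

open Set

abbrev E := EuclideanSpace ℝ (Fin 2)

def sgn (b : Bool) : ℝ := if b then 1 else -1

lemma sgn_mul_self (b : Bool) : sgn b * sgn b = 1 := by cases b <;> simp [sgn]

/-- the point at distance `r` from the origin on the half-axis number `k` of quadrant `q` -/
noncomputable def pt (q : Bool × Bool) (k : ℕ) (r : ℝ) : E :=
  if k % 2 = 0 then !₂[sgn q.1 * r, 0] else !₂[0, sgn q.2 * r]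

/-- the coordinate along the half-axis number `k` of quadrant `q` -/
noncomputable def co (q : Bool × Bool) (k : ℕ) (p : E) : ℝ :=
  if k % 2 = 0 then sgn q.1 * p 0 else sgn q.2 * p 1

lemma co_add_two (q : Bool × Bool) (k : ℕ) (p : E) : co q (k + 2) p = co q k p := by
  have : (k + 2) % 2 = k % 2 := by omega
  simp [co, this]

lemma co_pt (q : Bool × Bool) (k : ℕ) (r : ℝ) : co q k (pt q k r) = r := by
  by_cases h : k % 2 = 0 <;> simp [co, pt, h, ← mul_assoc, sgn_mul_self]

lemma co_succ_pt (q : Bool × Bool) (k : ℕ) (r : ℝ) : co q (k + 1) (pt q k r) = 0 := by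
  by_cases h : k % 2 = 0
  · have h' : ¬ (k + 1) % 2 = 0 := by omega
    simp [co, pt, h, h']
  · have h' : (k + 1) % 2 = 0 := by omega
    simp [co, pt, h, h']

lemma co_pt_succ (q : Bool × Bool) (k : ℕ) (r : ℝ) : co q k (pt q (k + 1) r) = 0 := by
  rw [← co_add_two]; exact co_succ_pt q (k + 1) r

lemma co_add (q : Bool × Bool) (k : ℕ) (p p' : E) : co q k (p + p') = co q k p + co q k p' := by
  by_cases h : k % 2 = 0 <;> simp [co, h, mul_add]

lemma co_smul (q : Bool × Bool) (k : ℕ) (c : ℝ) (p : E) : co q k (c • p) = c * co q k p := by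
  by_cases h : k % 2 = 0 <;> simp [co, h] <;> ring

lemma co_zero (q : Bool × Bool) (k : ℕ) : co q k 0 = 0 := by
  by_cases h : k % 2 = 0 <;> simp [co, h]

lemma co_sub (q : Bool × Bool) (k : ℕ) (p p' : E) : co q k (p - p') = co q k p - co q k p' := by
  by_cases h : k % 2 = 0 <;> simp [co, h, mul_sub]

lemma ext_co (q : Bool × Bool) (k : ℕ) {p p' : E} (h1 : co q k p = co q k p')
    (h2 : co q (k + 1) p = co q (k + 1) p') : p = p' := by
  have s1 := sgn_mul_self q.1
  have s2 := sgn_mul_self q.2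
  have key : sgn q.1 * p 0 = sgn q.1 * p' 0 ∧ sgn q.2 * p 1 = sgn q.2 * p' 1 := by
    by_cases h : k % 2 = 0
    · have h' : ¬ (k + 1) % 2 = 0 := by omega
      simp only [co, h, h', if_true, if_false] at h1 h2
      exact ⟨h1, h2⟩
    · have h' : (k + 1) % 2 = 0 := by omega
      simp only [co, h, h', if_true, if_false] at h1 h2
      exact ⟨h2, h1⟩
  ext i
  fin_cases i
  · show p 0 = p' 0
    linear_combination (sgn q.1) * key.1 - (p 0 - p' 0) * s1
  · show p 1 = p' 1
    linear_combination (sgn q.2) * key.2 - (p 1 - p' 1) * s2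

lemma norm_sq_co (q : Bool × Bool) (k : ℕ) (p : E) :
    ‖p‖ ^ 2 = (co q k p) ^ 2 + (co q (k + 1) p) ^ 2 := by
  have s1 := sgn_mul_self q.1
  have s2 := sgn_mul_self q.2
  rw [EuclideanSpace.real_norm_sq_eq, Fin.sum_univ_two]
  by_cases h : k % 2 = 0
  · have h' : ¬ (k + 1) % 2 = 0 := by omega
    simp only [co, h, h', if_true, if_false]
    linear_combination (-(p 0) ^ 2) * s1 - (p 1) ^ 2 * s2
  · have h' : (k + 1) % 2 = 0 := by omega
    simp only [co, h, h', if_true, if_false]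
    linear_combination (-(p 0) ^ 2) * s1 - (p 1) ^ 2 * s2

lemma dist_eq_of_sq (q : Bool × Bool) (k : ℕ) (p p' : E) (d : ℝ) (hd : 0 ≤ d)
    (h : (co q k p - co q k p') ^ 2 + (co q (k + 1) p - co q (k + 1) p') ^ 2 = d ^ 2) :
    dist p p' = d := by
  rw [dist_eq_norm]
  have h1 := norm_sq_co q k (p - p')
  rw [co_sub, co_sub, h] at h1
  exact (pow_left_inj₀ (norm_nonneg _) hd two_ne_zero).1 h1

/-- the three vertices of the `k`-th triangle of quadrant `q` -/
noncomputable def vtx (q : Bool × Bool) (k : ℕ) : Fin 3 → E :=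
  ![pt q k (y q k), pt q (k + 1) (y q (k + 1)), pt q k (y q (k + 2))]

lemma vtx0 (q : Bool × Bool) (k : ℕ) : vtx q k 0 = pt q k (y q k) := rfl
lemma vtx1 (q : Bool × Bool) (k : ℕ) : vtx q k 1 = pt q (k + 1) (y q (k + 1)) := rfl
lemma vtx2 (q : Bool × Bool) (k : ℕ) : vtx q k 2 = pt q k (y q (k + 2)) := rfl

lemma y_nonneg (q : Bool × Bool) (k : ℕ) : (0 : ℝ) ≤ y q k := by
  exact_mod_cast (facts q k).1
lemma y_succ_pos (q : Bool × Bool) (k : ℕ) : (0 : ℝ) < y q (k + 1) := by
  exact_mod_cast (facts q k).2.1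
lemma y_lt' (q : Bool × Bool) (k : ℕ) : (y q k : ℝ) < y q (k + 2) := by
  exact_mod_cast y_lt q k

lemma vtx_indep (q : Bool × Bool) (k : ℕ) : AffineIndependent ℝ (vtx q k) := by
  rw [affineIndependent_iff_of_fintype]
  intro c hc h
  rw [Finset.weightedVSub_eq_linear_combination _ hc, Fin.sum_univ_three] at h
  rw [Fin.sum_univ_three] at hc
  have h1 := congrArg (co q k) h
  have h2 := congrArg (co q (k + 1)) h
  simp only [co_add, co_smul, co_zero, vtx0, vtx1, vtx2, co_pt, co_succ_pt, co_pt_succ] at h1 h2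
  have p1 := y_succ_pos q k
  have p2 := y_lt' q k
  have c1 : c 1 = 0 := by
    have : c 1 * (y q (k + 1) : ℝ) = 0 := by linarith
    rcases mul_eq_zero.1 this with h3 | h3
    · exact h3
    · exact absurd h3 p1.ne'
  have c2 : c 2 = 0 := by
    have : c 2 * ((y q (k + 2) : ℝ) - y q k) = 0 := by
      linear_combination h1 - (y q k : ℝ) * hc + (y q k : ℝ) * c1
    rcases mul_eq_zero.1 this with h3 | h3
    · exact h3
    · exact absurd h3 (by linarith)
  intro i
  fin_cases i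
  · show c 0 = 0
    linarith
  · exact c1
  · exact c2

noncomputable def tri (q : Bool × Bool) (k : ℕ) : Affine.Triangle ℝ E :=
  ⟨vtx q k, vtx_indep q k⟩

/-- the affine function vanishing on the `k`-th zigzag segment -/
noncomputable def lv (q : Bool × Bool) (k : ℕ) (p : E) : ℝ :=
  co q k p * y q (k + 1) + co q (k + 1) p * y q k - y q k * y q (k + 1)

lemma hull_subset (q : Bool × Bool) (k : ℕ) (p : E) (hp : p ∈ convexHull ℝ (range (vtx q k))) :
    0 ≤ co q k p ∧ 0 ≤ co q (k + 1) p ∧ 0 ≤ lv q k p ∧ lv q (k + 1) p ≤ 0 := by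
  have p0 := y_nonneg q k
  have p1 := y_succ_pos q k
  have p2 := y_lt' q k
  have hsub : convexHull ℝ (range (vtx q k)) ⊆
      {p | 0 ≤ co q k p ∧ 0 ≤ co q (k + 1) p ∧ 0 ≤ lv q k p ∧ lv q (k + 1) p ≤ 0} := by
    apply convexHull_min
    · rintro _ ⟨i, rfl⟩
      fin_cases i
      · show 0 ≤ co q k (vtx q k 0) ∧ 0 ≤ co q (k + 1) (vtx q k 0) ∧ 0 ≤ lv q k (vtx q k 0) ∧
          lv q (k + 1) (vtx q k 0) ≤ 0
        simp only [lv, vtx0, co_add_two, co_pt, co_succ_pt]
        refine ⟨p0, le_rfl, by nlinarith, by nlinarith⟩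
      · show 0 ≤ co q k (vtx q k 1) ∧ 0 ≤ co q (k + 1) (vtx q k 1) ∧ 0 ≤ lv q k (vtx q k 1) ∧
          lv q (k + 1) (vtx q k 1) ≤ 0
        simp only [lv, vtx1, co_add_two, co_pt, co_pt_succ]
        refine ⟨le_rfl, p1.le, by nlinarith, by nlinarith⟩
      · show 0 ≤ co q k (vtx q k 2) ∧ 0 ≤ co q (k + 1) (vtx q k 2) ∧ 0 ≤ lv q k (vtx q k 2) ∧
          lv q (k + 1) (vtx q k 2) ≤ 0
        simp only [lv, vtx2, co_add_two, co_pt, co_succ_pt]
        refine ⟨by linarith, le_rfl, by nlinarith, by nlinarith⟩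
    · intro a ha b hb s t hs ht hst
      obtain ⟨a1, a2, a3, a4⟩ := ha
      obtain ⟨b1, b2, b3, b4⟩ := hb
      have e : ∀ m, lv q m (s • a + t • b) = s * lv q m a + t * lv q m b := by
        intro m
        simp only [lv, co_add, co_smul]
        linear_combination ((y q m : ℝ) * y q (m + 1)) * hst
      refine ⟨?_, ?_, ?_, ?_⟩
      · rw [co_add, co_smul, co_smul]; positivity
      · rw [co_add, co_smul, co_smul]; positivity
      · rw [e]; positivity
      · rw [e]; nlinarith [mul_nonneg hs (neg_nonneg.2 a4), mul_nonneg ht (neg_nonneg.2 b4)]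
  exact hsub hp

lemma mem_hull (q : Bool × Bool) (k : ℕ) (p : E) (h2 : 0 ≤ co q (k + 1) p) (h3 : 0 ≤ lv q k p)
    (h4 : lv q (k + 1) p ≤ 0) : p ∈ convexHull ℝ (range (vtx q k)) := by
  have p1 := y_succ_pos q k
  have p2 := y_lt' q k
  have p3 : (0 : ℝ) < y q (k + 2) - y q k := by linarith
  set D : ℝ := (y q (k + 1) : ℝ) * ((y q (k + 2) : ℝ) - y q k) with hD
  have hDpos : 0 < D := mul_pos p1 p3
  let c : Fin 3 → ℝ := ![-lv q (k + 1) p / D, co q (k + 1) p / y q (k + 1), lv q k p / D]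
  have hmem := (convex_convexHull ℝ (range (vtx q k))).sum_mem (t := Finset.univ) (w := c)
    (z := vtx q k) (by
      intro i _
      fin_cases i
      · exact div_nonneg (neg_nonneg.2 h4) hDpos.le
      · exact div_nonneg h2 p1.le
      · exact div_nonneg h3 hDpos.le) (by
      rw [Fin.sum_univ_three]
      show -lv q (k + 1) p / D + co q (k + 1) p / y q (k + 1) + lv q k p / D = 1
      simp only [lv, co_add_two, hD]
      field_simp
      ring) (fun i _ => subset_convexHull ℝ _ ⟨i, rfl⟩)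
  convert hmem using 1
  rw [Fin.sum_univ_three]
  apply ext_co q k
  · simp only [co_add, co_smul, vtx0, vtx1, vtx2, co_pt, co_pt_succ]
    show co q k p = -lv q (k + 1) p / D * _ + co q (k + 1) p / y q (k + 1) * 0 + lv q k p / D * _
    simp only [lv, co_add_two, hD]
    field_simp
    ring
  · simp only [co_add, co_smul, vtx0, vtx1, vtx2, co_pt, co_succ_pt]
    show co q (k + 1) p = -lv q (k + 1) p / D * 0 + co q (k + 1) p / y q (k + 1) * _ +
      lv q k p / D * 0
    field_simp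
    ring

lemma lv_step (q : Bool × Bool) (k : ℕ) (p : E) (h1 : 0 ≤ co q (k + 1) p)
    (h : lv q (k + 1) p ≤ 0) : lv q (k + 2) p ≤ 0 := by
  have p1 := y_succ_pos q k
  have p2 := y_succ_pos q (k + 1)
  have p3 := y_lt' q (k + 1)
  have e : co q (k + 2 + 1) p = co q (k + 1) p := co_add_two q (k + 1) p
  simp only [lv] at h ⊢
  rw [e]
  have h5 : co q (k + 2) p ≤ y q (k + 2) := by
    by_contra hc
    push Not at hc
    nlinarith [mul_nonneg h1 p2.le, mul_pos (sub_pos.2 hc) p1]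
  nlinarith [mul_nonneg (sub_nonneg.2 h5) (sub_pos.2 p3).le]

lemma co_nonneg_all (q : Bool × Bool) (k : ℕ) (p : E) (h1 : 0 ≤ co q k p)
    (h2 : 0 ≤ co q (k + 1) p) (m : ℕ) : 0 ≤ co q m p := by
  by_cases h : k % 2 = 0
  · have h' : ¬ (k + 1) % 2 = 0 := by omega
    simp only [co, h, h', if_true, if_false] at h1 h2
    by_cases hm : m % 2 = 0 <;> simp only [co, hm, if_true, if_false] <;> assumption
  · have h' : (k + 1) % 2 = 0 := by omega
    simp only [co, h, h', if_true, if_false] at h1 h2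
    by_cases hm : m % 2 = 0 <;> simp only [co, hm, if_true, if_false] <;> assumption

lemma lv_mono (q : Bool × Bool) (k : ℕ) (p : E) (h1 : ∀ m, 0 ≤ co q m p)
    (h : lv q (k + 1) p ≤ 0) (m : ℕ) (hm : k + 1 ≤ m) : lv q m p ≤ 0 := by
  induction m, hm using Nat.le_induction with
  | base => exact h
  | succ m hm ih =>
    obtain ⟨m', rfl⟩ : ∃ m', m = m' + 1 := ⟨m - 1, by omega⟩
    exact lv_step q m' p (h1 _) ih

lemma cover (p : E) : ∃ q k, p ∈ convexHull ℝ (range (vtx q k)) := by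
  obtain ⟨q, hq⟩ : ∃ q : Bool × Bool, ∀ m, 0 ≤ co q m p := by
    refine ⟨(decide (0 ≤ p 0), decide (0 ≤ p 1)), fun m => ?_⟩
    by_cases hm : m % 2 = 0
    · by_cases h : 0 ≤ p 0
      · simp [co, hm, sgn, h]
      · simp [co, hm, sgn, h]; linarith
    · by_cases h : 0 ≤ p 1
      · simp [co, hm, sgn, h]
      · simp [co, hm, sgn, h]; linarith
  have hex : ∃ k, lv q (k + 1) p ≤ 0 := by
    obtain ⟨k, hk⟩ := exists_nat_ge (4 * ‖p‖)
    refine ⟨k, ?_⟩
    have g1 : ((k + 1 : ℕ) : ℝ) ≤ 2 * y q (k + 1) + 1 := by exact_mod_cast y_ge q (k + 1)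
    have g2 : ((k + 2 : ℕ) : ℝ) ≤ 2 * y q (k + 2) + 1 := by exact_mod_cast y_ge q (k + 2)
    push_cast at g1 g2
    have n1 := norm_sq_co q (k + 1) p
    have a1 := hq (k + 1)
    have a2 := hq (k + 1 + 1)
    have hn := norm_nonneg p
    have b1 : co q (k + 1) p ≤ ‖p‖ := by
      apply le_of_sq_le_sq _ hn
      nlinarith [sq_nonneg (co q (k + 1 + 1) p)]
    have b2 : co q (k + 1 + 1) p ≤ ‖p‖ := by
      apply le_of_sq_le_sq _ hn
      nlinarith [sq_nonneg (co q (k + 1) p)]
    have p1 := y_succ_pos q k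
    have p2 := y_succ_pos q (k + 1)
    simp only [lv]
    have c1 : 2 * co q (k + 1) p ≤ y q (k + 1) := by linarith
    have c2 : 2 * co q (k + 1 + 1) p ≤ y q (k + 1 + 1) := by linarith
    nlinarith [mul_nonneg (sub_nonneg.2 c1) p2.le, mul_nonneg (sub_nonneg.2 c2) p1.le]
  classical
  refine ⟨q, Nat.find hex, mem_hull q _ p (hq _) ?_ (Nat.find_spec hex)⟩
  rcases Nat.eq_zero_or_pos (Nat.find hex) with h0 | h0
  · rw [h0]
    simp only [lv, y_zero]
    have := mul_nonneg (hq 0) (y_succ_pos q 0).le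
    simpa using this
  · obtain ⟨m, hm⟩ : ∃ m, Nat.find hex = m + 1 := ⟨Nat.find hex - 1, by omega⟩
    have := Nat.find_min hex (m := m) (by omega)
    rw [hm]
    linarith [not_le.1 this]

/-- two sets on the two sides of a line have disjoint interiors -/
lemma disjoint_interiors {A B : Set E} (f : E → ℝ) (v : E) (c : ℝ) (hc : c ≠ 0)
    (hf : ∀ (p : E) (t : ℝ), f (p + t • v) = f p + t * c)
    (hA : ∀ p ∈ A, f p ≤ 0) (hB : ∀ p ∈ B, 0 ≤ f p) : Disjoint (interior A) (interior B) := by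
  rw [Set.disjoint_left]
  intro p hpA hpB
  have hn : A ∩ B ∈ nhds p :=
    Filter.inter_mem (mem_interior_iff_mem_nhds.1 hpA) (mem_interior_iff_mem_nhds.1 hpB)
  have hcont : Continuous fun t : ℝ => p + t • v := by fun_prop
  have ht : (fun t : ℝ => p + t • v) ⁻¹' (A ∩ B) ∈ nhds (0 : ℝ) := by
    apply hcont.continuousAt.preimage_mem_nhds
    simpa using hn
  obtain ⟨ε, hε, hball⟩ := Metric.mem_nhds_iff.1 ht
  have z0 : ∀ t : ℝ, |t| < ε → f p + t * c = 0 := by
    intro t ht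
    have hm : p + t • v ∈ A ∩ B := hball (by simpa using ht)
    rw [← hf]
    exact le_antisymm (hA _ hm.1) (hB _ hm.2)
  have z1 := z0 0 (by simpa using hε)
  have z2 := z0 (ε / 2) (by rw [abs_of_pos (by linarith)]; linarith)
  have : ε / 2 * c = 0 := by linarith
  rcases mul_eq_zero.1 this with h | h
  · linarith
  · exact hc h

lemma disjoint_lt (q : Bool × Bool) {k k' : ℕ} (h : k < k') :
    Disjoint (interior (convexHull ℝ (range (vtx q k))))
      (interior (convexHull ℝ (range (vtx q k')))) := by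
  apply disjoint_interiors (lv q k') (pt q k' 1) (y q (k' + 1)) (y_succ_pos q k').ne'
  · intro p t
    simp only [lv, co_add, co_smul, co_pt, co_succ_pt]
    ring
  · intro p hp
    obtain ⟨h1, h2, -, h4⟩ := hull_subset q k p hp
    exact lv_mono q k p (co_nonneg_all q k p h1 h2) h4 k' h
  · intro p hp
    exact (hull_subset q k' p hp).2.2.1

lemma disjoint_quad {q q' : Bool × Bool} (h : q ≠ q') (k k' : ℕ) :
    Disjoint (interior (convexHull ℝ (range (vtx q k))))
      (interior (convexHull ℝ (range (vtx q' k')))) := by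
  obtain ⟨m, hm⟩ : ∃ m, ∀ p, co q m p = - co q' m p := by
    by_cases h1 : q.1 = q'.1
    · have h2 : q.2 ≠ q'.2 := fun h2 => h (Prod.ext h1 h2)
      refine ⟨1, fun p => ?_⟩
      rcases q with ⟨a, _ | _⟩ <;> rcases q' with ⟨a', _ | _⟩ <;> simp [co, sgn] at h2 ⊢
    · refine ⟨0, fun p => ?_⟩
      rcases q with ⟨_ | _, a⟩ <;> rcases q' with ⟨_ | _, a'⟩ <;> simp [co, sgn] at h1 ⊢
  apply disjoint_interiors (co q' m) (pt q' m 1) 1 one_ne_zero
  · intro p t
    simp only [co_add, co_smul, co_pt]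
  · intro p hp
    obtain ⟨h1, h2, -, -⟩ := hull_subset q k p hp
    have := co_nonneg_all q k p h1 h2 m
    rw [hm] at this
    linarith
  · intro p hp
    obtain ⟨h1, h2, -, -⟩ := hull_subset q' k' p hp
    exact co_nonneg_all q' k' p h1 h2 m

lemma disjoint_all {i j : (Bool × Bool) × ℕ} (h : i ≠ j) :
    Disjoint (interior (convexHull ℝ (range (vtx i.1 i.2))))
      (interior (convexHull ℝ (range (vtx j.1 j.2)))) := by
  obtain ⟨q, k⟩ := i
  obtain ⟨q', k'⟩ := j
  by_cases hq : q = q'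
  · subst hq
    have hk : k ≠ k' := fun hk => h (by rw [hk])
    rcases lt_or_gt_of_ne hk with h1 | h1
    · exact disjoint_lt q h1
    · exact (disjoint_lt q h1).symm
  · exact disjoint_quad hq k k'

lemma dist01 (q : Bool × Bool) (k : ℕ) : dist (vtx q k 0) (vtx q k 1) = hyp q k := by
  obtain ⟨-, -, h1, h2, -⟩ := facts q k
  apply dist_eq_of_sq q k _ _ _ (by exact_mod_cast h1.le)
  simp only [vtx0, vtx1, co_pt, co_succ_pt, co_pt_succ]
  have : ((y q k : ℝ)) ^ 2 + (y q (k + 1) : ℝ) ^ 2 = (hyp q k : ℝ) ^ 2 := by exact_mod_cast h2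
  linear_combination this

lemma dist12 (q : Bool × Bool) (k : ℕ) : dist (vtx q k 1) (vtx q k 2) = hyp q (k + 1) := by
  obtain ⟨-, -, h1, h2, -⟩ := facts q (k + 1)
  apply dist_eq_of_sq q k _ _ _ (by exact_mod_cast h1.le)
  simp only [vtx1, vtx2, co_pt, co_succ_pt, co_pt_succ]
  have : ((y q (k + 1) : ℝ)) ^ 2 + (y q (k + 2) : ℝ) ^ 2 = (hyp q (k + 1) : ℝ) ^ 2 := by
    exact_mod_cast h2
  linear_combination this

lemma dist02 (q : Bool × Bool) (k : ℕ) :
    dist (vtx q k 0) (vtx q k 2) = ((y q (k + 2) - y q k : ℤ) : ℝ) := by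
  have p2 := y_lt' q k
  apply dist_eq_of_sq q k _ _ _ (by push_cast; linarith)
  simp only [vtx0, vtx2, co_pt, co_succ_pt]
  push_cast
  ring

lemma dist_cases (q : Bool × Bool) (k : ℕ) {a b : Fin 3} (hab : a ≠ b) :
    dist (vtx q k a) (vtx q k b) = hyp q k ∨ dist (vtx q k a) (vtx q k b) = hyp q (k + 1) ∨
      dist (vtx q k a) (vtx q k b) = ((y q (k + 2) - y q k : ℤ) : ℝ) := by
  have h1 := dist01 q k
  have h2 := dist12 q k
  have h3 := dist02 q k
  fin_cases a <;> fin_cases b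
  · exact absurd rfl hab
  · exact Or.inl h1
  · exact Or.inr (Or.inr h3)
  · exact Or.inl ((dist_comm _ _).trans h1)
  · exact absurd rfl hab
  · exact Or.inr (Or.inl h2)
  · exact Or.inr (Or.inr ((dist_comm _ _).trans h3))
  · exact Or.inr (Or.inl ((dist_comm _ _).trans h2))
  · exact absurd rfl hab

lemma dist_int (q : Bool × Bool) (k : ℕ) {a b : Fin 3} (hab : a ≠ b) :
    ∃ n : ℕ, 0 < n ∧ dist (vtx q k a) (vtx q k b) = n := by
  have key : ∀ z : ℤ, 0 < z → dist (vtx q k a) (vtx q k b) = z →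
      ∃ n : ℕ, 0 < n ∧ dist (vtx q k a) (vtx q k b) = n := by
    intro z hz h
    refine ⟨z.toNat, by omega, ?_⟩
    rw [h]
    have : ((z.toNat : ℤ) : ℝ) = z := by rw [Int.toNat_of_nonneg hz.le]
    exact_mod_cast this.symm
  rcases dist_cases q k hab with h | h | h
  · exact key _ (facts q k).2.2.1 h
  · exact key _ (facts q (k + 1)).2.2.1 h
  · exact key _ (by have := y_lt q k; omega) h

lemma dist_bounds (q : Bool × Bool) (k : ℕ) {a b : Fin 3} (hab : a ≠ b) :
    (hyp q k : ℝ) ≤ dist (vtx q k a) (vtx q k b) ∧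
      dist (vtx q k a) (vtx q k b) ≤ hyp q (k + 1) := by
  obtain ⟨-, -, -, -, h1, h2, -⟩ := facts q k
  have h1' : (hyp q k : ℝ) ≤ ((y q (k + 2) - y q k : ℤ) : ℝ) := by exact_mod_cast h1
  have h2' : ((y q (k + 2) - y q k : ℤ) : ℝ) ≤ hyp q (k + 1) := by exact_mod_cast h2
  rcases dist_cases q k hab with h | h | h <;> rw [h] <;> constructor <;> linarith

lemma not_similar {i j : (Bool × Bool) × ℕ} (h : i ≠ j) (σ : Equiv.Perm (Fin 3)) :
    ¬ Similar (vtx i.1 i.2) (vtx j.1 j.2 ∘ σ) := by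
  obtain ⟨q, k⟩ := i
  obtain ⟨q', k'⟩ := j
  intro hs
  obtain ⟨r, hr, hd⟩ := similar_iff_exists_pos_dist_eq.1 hs
  simp only [Function.comp] at hd
  have n01 : (0 : Fin 3) ≠ 1 := by decide
  have n12 : (1 : Fin 3) ≠ 2 := by decide
  have a1 : r * hyp q' k' ≤ hyp q k := by
    rw [← dist01 q k, hd]
    exact mul_le_mul_of_nonneg_left (dist_bounds q' k' (σ.injective.ne n01)).1 hr.le
  have a2 : (hyp q k : ℝ) ≤ r * hyp q' k' := by
    have := hd (σ.symm 0) (σ.symm 1)
    rw [σ.apply_symm_apply, σ.apply_symm_apply, dist01] at this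
    rw [← this]
    exact (dist_bounds q k (σ.symm.injective.ne n01)).1
  have c1 : (hyp q (k + 1) : ℝ) ≤ r * hyp q' (k' + 1) := by
    rw [← dist12 q k, hd]
    exact mul_le_mul_of_nonneg_left (dist_bounds q' k' (σ.injective.ne n12)).2 hr.le
  have c2 : r * hyp q' (k' + 1) ≤ hyp q (k + 1) := by
    have := hd (σ.symm 1) (σ.symm 2)
    rw [σ.apply_symm_apply, σ.apply_symm_apply, dist12] at this
    rw [← this]
    exact (dist_bounds q k (σ.symm.injective.ne n12)).2
  have ea : (hyp q k : ℝ) = r * hyp q' k' := le_antisymm a2 a1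
  have ec : (hyp q (k + 1) : ℝ) = r * hyp q' (k' + 1) := le_antisymm c1 c2
  have e : hyp q (k + 1) * hyp q' k' = hyp q' (k' + 1) * hyp q k := by
    have : (hyp q (k + 1) : ℝ) * hyp q' k' = hyp q' (k' + 1) * hyp q k := by
      rw [ea, ec]; ring
    exact_mod_cast this
  obtain ⟨-, -, p1, -, -, -, l1, u1⟩ := facts q k
  obtain ⟨-, -, p2, -, -, -, l2, u2⟩ := facts q' k'
  have pp := mul_pos p1 p2
  have k1 : key q k < key q' k' + 1 := by
    have t1 := mul_le_mul_of_nonneg_right l1 p2.le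
    have t2 := mul_lt_mul_of_pos_right u2 p1
    by_contra hc
    push Not at hc
    nlinarith [mul_le_mul_of_nonneg_right hc pp.le]
  have k2 : key q' k' < key q k + 1 := by
    have t1 := mul_le_mul_of_nonneg_right l2 p1.le
    have t2 := mul_lt_mul_of_pos_right u1 p2
    by_contra hc
    push Not at hc
    nlinarith [mul_le_mul_of_nonneg_right hc pp.le]
  obtain ⟨h1, h2⟩ := key_inj (show key q k = key q' k' by omega)
  exact h (Prod.ext h1 h2)

/-- every bounded set meets only finitely many tiles -/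
lemma finite_meet (R : ℝ) :
    {i : (Bool × Bool) × ℕ | ∃ p ∈ convexHull ℝ (range (vtx i.1 i.2)), ‖p‖ ≤ R}.Finite := by
  obtain ⟨N, hN⟩ := exists_nat_ge (4 * R + 1)
  apply Set.Finite.subset ((Set.finite_univ (α := Bool × Bool)).prod (Set.finite_Iic N))
  rintro ⟨q, k⟩ ⟨p, hp, hR⟩
  refine ⟨mem_univ _, ?_⟩
  show k ≤ N
  by_contra hk
  push Not at hk
  have hk' : (N : ℝ) < k := by exact_mod_cast hk
  obtain ⟨a1, a2, a3, -⟩ := hull_subset q k p hp
  have g1 : (k : ℝ) ≤ 2 * y q k + 1 := by exact_mod_cast y_ge q k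
  have g2 : ((k + 1 : ℕ) : ℝ) ≤ 2 * y q (k + 1) + 1 := by exact_mod_cast y_ge q (k + 1)
  push_cast at g2
  have n1 := norm_sq_co q k p
  have hn := norm_nonneg p
  have b1 : co q k p ≤ ‖p‖ := by
    apply le_of_sq_le_sq _ hn
    nlinarith [sq_nonneg (co q (k + 1) p)]
  have b2 : co q (k + 1) p ≤ ‖p‖ := by
    apply le_of_sq_le_sq _ hn
    nlinarith [sq_nonneg (co q k p)]
  have c1 : 2 * co q k p < y q k := by linarith
  have c2 : 2 * co q (k + 1) p < y q (k + 1) := by linarith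
  have p0 : (0 : ℝ) < y q k := by linarith
  have p1 := y_succ_pos q k
  simp only [lv] at a3
  nlinarith [mul_pos (sub_pos.2 c1) p1, mul_pos (sub_pos.2 c2) p0]

end Pool.Agent.MP_0d7d47_co.H52
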